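import Mathlib
import Pool.Agent.Helper133.NonAF

/-!
# A separable non-AF C*-algebra whose corona does not contain all AF algebras

We disprove the statement: every separable C*-algebra `A` which has no nonzero unital quotients
and is not AF has the universal AF embedding property.
-/

open scoped MultiplierAlgebra

namespace Pool.Agent.Results.MP_4d6ef8_an.Disproof

/-- `B` is an AF algebra: it is the closure of an increasing sequence of finite-dimensional
star subalgebras. -/
def IsAF (B : Type) [NonUnitalCStarAlgebra B] : Prop :=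
  ∃ S : ℕ → NonUnitalStarSubalgebra ℂ B, Monotone S ∧
    (∀ n, FiniteDimensional ℂ (Submodule.span ℂ (S n : Set B))) ∧
    Dense (⋃ n, (S n : Set B))

/-- `A` has no nonzero unital quotients: `A` is nonzero and for no proper closed two-sided ideal
`I` does the quotient `A / I` have a unit. -/
def HasNoNonzeroUnitalQuotient (A : Type) [NonUnitalCStarAlgebra A] : Prop :=
  Nontrivial A ∧ ∀ I : TwoSidedIdeal A, IsClosed (I : Set A) → I ≠ ⊤ →
    ¬ ∃ u : A, ∀ a : A, u * a - a ∈ I ∧ a * u - a ∈ I

section Corona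

variable (A : Type) [NonUnitalCStarAlgebra A]

lemma fst_mul (x : 𝓜(ℂ, A)) (a b : A) : x.fst (a * b) = x.fst a * b := by
  have h : ∀ z : A, z * (x.fst (a * b) - x.fst a * b) = 0 := by
    intro z
    rw [mul_sub, ← x.central, ← mul_assoc, ← mul_assoc, ← x.central, sub_self]
  have h2 := h (star (x.fst (a * b) - x.fst a * b))
  rw [CStarRing.star_mul_self_eq_zero_iff] at h2
  exact sub_eq_zero.1 h2

lemma snd_mul (x : 𝓜(ℂ, A)) (a b : A) : x.snd (a * b) = a * x.snd b := by
  have h : ∀ z : A, (x.snd (a * b) - a * x.snd b) * z = 0 := by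
    intro z
    rw [sub_mul, x.central, mul_assoc, mul_assoc, x.central, sub_self]
  have h2 := h (star (x.snd (a * b) - a * x.snd b))
  rw [CStarRing.mul_star_self_eq_zero_iff] at h2
  exact sub_eq_zero.1 h2

lemma mul_coe (x : 𝓜(ℂ, A)) (a : A) : x * (a : 𝓜(ℂ, A)) = ((x.fst a : A) : 𝓜(ℂ, A)) := by
  refine DoubleCentralizer.ext ℂ A _ _ (Prod.ext ?_ ?_)
  · ext b
    show x.fst (a * b) = x.fst a * b
    exact fst_mul A x a b
  · ext b
    show x.snd b * a = b * x.fst a
    exact x.central b a

lemma coe_mul (x : 𝓜(ℂ, A)) (a : A) : (a : 𝓜(ℂ, A)) * x = ((x.snd a : A) : 𝓜(ℂ, A)) := by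
  refine DoubleCentralizer.ext ℂ A _ _ (Prod.ext ?_ ?_)
  · ext b
    show a * x.fst b = x.snd a * b
    exact (x.central a b).symm
  · ext b
    show x.snd (b * a) = b * x.snd a
    exact snd_mul A x b a

/-- The congruence on the multiplier algebra `M(A)` of differing by an element of `A`. -/
def coronaCon : RingCon 𝓜(ℂ, A) where
  r x y := ∃ a : A, x - y = (a : 𝓜(ℂ, A))
  iseqv :=
    { refl := fun x => ⟨0, by rw [sub_self]; exact (map_zero (DoubleCentralizer.coeHom)).symm⟩
      symm := by
        rintro x y ⟨a, ha⟩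
        refine ⟨-a, ?_⟩
        rw [← neg_sub, ha]
        exact (map_neg (DoubleCentralizer.coeHom) a).symm
      trans := by
        rintro x y z ⟨a, ha⟩ ⟨b, hb⟩
        refine ⟨a + b, ?_⟩
        rw [← sub_add_sub_cancel x y z, ha, hb]
        exact (map_add (DoubleCentralizer.coeHom) a b).symm }
  mul' := by
    rintro w x y z ⟨a, ha⟩ ⟨b, hb⟩
    refine ⟨(y.snd a) + (x.fst b), ?_⟩
    have h1 : w * y - x * z = (w - x) * y + x * (y - z) := by
      rw [sub_mul, mul_sub]; abel
    rw [h1, ha, hb, coe_mul, mul_coe]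
    exact (map_add (DoubleCentralizer.coeHom) _ _).symm
  add' := by
    rintro w x y z ⟨a, ha⟩ ⟨b, hb⟩
    refine ⟨a + b, ?_⟩
    rw [add_sub_add_comm, ha, hb]
    exact (map_add (DoubleCentralizer.coeHom) a b).symm

/-- The corona algebra `M(A) / A`. -/
abbrev Corona : Type := (coronaCon A).Quotient

lemma coronaCon_star {x y : 𝓜(ℂ, A)} (h : coronaCon A x y) : coronaCon A (star x) (star y) := by
  obtain ⟨a, ha⟩ := h
  refine ⟨star a, ?_⟩
  rw [← star_sub, ha]
  exact (map_star (DoubleCentralizer.coeHom) a).symm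

/-- The involution of the corona algebra, induced by the one of `M(A)`. -/
noncomputable instance : StarRing (Corona A) where
  star := Quotient.map' star fun _ _ h => coronaCon_star A h
  star_involutive := by
    intro x
    induction x using Quotient.inductionOn' with
    | h x => exact congrArg Quotient.mk'' (star_star x)
  star_mul := by
    intro x y
    induction x using Quotient.inductionOn' with
    | h x =>
      induction y using Quotient.inductionOn' with
      | h y => exact congrArg Quotient.mk'' (star_mul x y)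
  star_add := by
    intro x y
    induction x using Quotient.inductionOn' with
    | h x =>
      induction y using Quotient.inductionOn' with
      | h y => exact congrArg Quotient.mk'' (star_add x y)

end Corona

/-- The universal AF embedding property of `A`: every nonzero AF algebra embeds in `M(A) / A`, and
every nonzero unital AF algebra embeds unitally in `M(A) / A`. -/
def HasUniversalAFEmbedding (A : Type) [NonUnitalCStarAlgebra A] : Prop :=
  (∀ (B : Type) [NonUnitalCStarAlgebra B], Nontrivial B → IsAF B →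
    ∃ φ : B →⋆ₙₐ[ℂ] Corona A, Function.Injective φ) ∧
  (∀ (B : Type) [CStarAlgebra B], Nontrivial B → IsAF B →
    ∃ φ : B →⋆ₐ[ℂ] Corona A, Function.Injective φ)

/-- The algebra of 2 by 2 complex matrices, as operators on two-dimensional Hilbert space. -/
abbrev M2 := EuclideanSpace ℂ (Fin 2) →L[ℂ] EuclideanSpace ℂ (Fin 2)

lemma isAF_M2 : IsAF M2 := by
  refine ⟨fun _ => ⊤, monotone_const, fun _ => inferInstance, ?_⟩
  have : (⋃ _ : ℕ, ((⊤ : NonUnitalStarSubalgebra ℂ M2) : Set M2)) = Set.univ := by
    rw [Set.iUnion_const]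
    rfl
  rw [this]
  exact dense_univ

open InnerProductSpace in
/-- The matrix unit `e₁₂`. -/
noncomputable def E12 : M2 :=
  rankOne ℂ (EuclideanSpace.basisFun (Fin 2) ℂ 0) (EuclideanSpace.basisFun (Fin 2) ℂ 1)

lemma E12_sq : E12 * E12 = 0 := by
  rw [E12, ContinuousLinearMap.mul_def, InnerProductSpace.rankOne_comp_rankOne]
  rw [(EuclideanSpace.basisFun (Fin 2) ℂ).inner_eq_ite]
  simp

lemma E12_rel : star E12 * E12 + E12 * star E12 = 1 := by
  rw [E12, ContinuousLinearMap.star_eq_adjoint, InnerProductSpace.adjoint_rankOne,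
    ContinuousLinearMap.mul_def, ContinuousLinearMap.mul_def,
    InnerProductSpace.rankOne_comp_rankOne, InnerProductSpace.rankOne_comp_rankOne,
    (EuclideanSpace.basisFun (Fin 2) ℂ).inner_eq_ite,
    (EuclideanSpace.basisFun (Fin 2) ℂ).inner_eq_ite]
  ext x i
  fin_cases i <;> simp [EuclideanSpace.inner_single_left]

/-- If `M₂(ℂ)` maps unitally to the corona algebra, then there is a multiplier satisfying the
relations of `e₁₂` modulo `A`. -/
lemma exists_lift (A : Type) [NonUnitalCStarAlgebra A] (φ : M2 →⋆ₐ[ℂ] Corona A) :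
    ∃ (x : 𝓜(ℂ, A)) (c d : A), x * x = (c : 𝓜(ℂ, A)) ∧
      star x * x + x * star x - 1 = (d : 𝓜(ℂ, A)) := by
  obtain ⟨x, hx⟩ := Quotient.exists_rep (φ E12)
  have hx' : ((coronaCon A).mk' x : Corona A) = φ E12 := hx
  have hstar : ((coronaCon A).mk' (star x) : Corona A) = star (φ E12) := by
    rw [← hx']; rfl
  have h1 : (coronaCon A).mk' (x * x) = (coronaCon A).mk' 0 := by
    rw [map_mul, hx', ← map_mul, E12_sq, map_zero, map_zero]
  have h2 : (coronaCon A).mk' (star x * x + x * star x) = (coronaCon A).mk' 1 := by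
    rw [map_add, map_mul, map_mul, hstar, hx', ← map_star, ← map_mul, ← map_mul, ← map_add,
      E12_rel, map_one, map_one]
  obtain ⟨c, hc⟩ := (RingCon.eq _).1 h1
  obtain ⟨d, hd⟩ := (RingCon.eq _).1 h2
  exact ⟨x, c, d, by rw [sub_zero] at hc; exact hc, hd⟩

/-- The counterexample. -/
abbrev CA : Type := Helper133.Alg.A Helper133.Kill.β

noncomputable instance : NonUnitalCStarAlgebra CA := inferInstance

open Helper133 in
lemma ca_noUnitalQuotient : HasNoNonzeroUnitalQuotient CA := by
  refine ⟨?_, ?_⟩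
  · refine ⟨⟨Alg.g Kill.β 0 1 none none, 0, fun h => ?_⟩⟩
    have h2 := Alg.p_apply (β := Kill.β) 0 Kill.e_norm Kill.β_none
      (fun _ => (⟨0, by simp⟩, ⟨0, by simp⟩))
    rw [h] at h2
    have h3 : (0 : Kill.H) = Kill.e := h2
    have h4 := Kill.e_norm
    rw [← h3, norm_zero] at h4
    exact zero_ne_one h4
  · intro I hI hne ⟨u, hu⟩
    exact hne (Alg.no_unital_quotient Kill.e_norm Kill.β_none Kill.β_norm_le Kill.far I hI u
      (fun a => (hu a).1))

open Helper133 in
/-- The norm of the first coordinate. -/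
noncomputable def kfun : C(Kill.X, ℂ) :=
  ⟨fun t => ((‖((t 0).1 : Kill.V)‖ : ℝ) : ℂ), by
    have h : Continuous fun t : Kill.X => ((t 0).1 : Kill.V) :=
      continuous_subtype_val.comp (continuous_fst.comp (continuous_apply 0))
    exact Complex.continuous_ofReal.comp h.norm⟩

open Helper133 in
/-- A path in the parameter space. -/
noncomputable def path : C(unitInterval, Kill.X) :=
  ⟨fun s _ => (⟨((s : ℝ) : ℂ) • Kill.bs 0, by
      rw [mem_closedBall_zero_iff, norm_smul, Kill.bs.norm_eq_one, mul_one, Complex.norm_real,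
        Real.norm_eq_abs, abs_of_nonneg s.2.1]
      exact s.2.2⟩, ⟨0, by simp⟩), by
    refine continuous_pi fun _ => Continuous.prodMk ?_ continuous_const
    refine Continuous.subtype_mk ?_ _
    exact (Complex.continuous_ofReal.comp continuous_subtype_val).smul continuous_const⟩

open Helper133 in
lemma kfun_path (s : unitInterval) : kfun (path s) = ((s : ℝ) : ℂ) := by
  show ((‖((s : ℝ) : ℂ) • Kill.bs 0‖ : ℝ) : ℂ) = _
  rw [norm_smul, Kill.bs.norm_eq_one, mul_one, Complex.norm_real, Real.norm_eq_abs,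
    abs_of_nonneg s.2.1]

open Helper133 in
/-- The inclusion of the counterexample in the algebra of operator fields. -/
noncomputable def incl : CA →⋆ₙₐ[ℂ] Alg.D Kill.X Kill.H where
  toFun a := (a : Alg.D Kill.X Kill.H)
  map_smul' _ _ := rfl
  map_zero' := rfl
  map_add' _ _ := rfl
  map_mul' _ _ := rfl
  map_star' _ := rfl

open Helper133 in
lemma ca_not_AF : ¬ IsAF CA := by
  rintro ⟨S, _, hfin, hdense⟩
  obtain ⟨b, hb, hab⟩ := hdense.exists_dist_lt (Alg.g Kill.β 0 kfun none none)
    (ε := 1 / 10) (by norm_num)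
  obtain ⟨n, hbn⟩ := Set.mem_iUnion.1 hb
  have := hfin n
  refine Alg.no_fd_approx incl Kill.e_norm Kill.β_none (fun _ => rfl) kfun ?_ path ?_ ?_
    (Alg.g Kill.β 0 kfun none none) rfl (S n) b hbn ?_
  · ext t
    show (starRingEnd ℂ) ((‖((t 0).1 : Kill.V)‖ : ℝ) : ℂ) = _
    rw [Complex.conj_ofReal]
    rfl
  · rw [kfun_path]; simp
  · rw [kfun_path]; simp
  · rw [← dist_eq_norm]; exact hab

open Helper133 in
lemma ca_not_universal : ¬ HasUniversalAFEmbedding CA := by
  rintro ⟨_, h⟩
  obtain ⟨φ, _⟩ := h M2 inferInstance isAF_M2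
  obtain ⟨x, c, d, hxx, hx⟩ := exists_lift CA φ
  exact Alg.no_M2 Kill.e_norm Kill.β_none (fun ξ₁ ξ₂ h1 h2 δ hδ => Kill.kill ξ₁ ξ₂ h1 h2 hδ)
    x c d hxx hx

open Helper133 in
lemma ca_separable : TopologicalSpace.SeparableSpace CA :=
  Alg.separable Kill.β_norm_le

/-- There is a separable C*-algebra with no nonzero unital quotients which is not AF and which
does not have the universal AF embedding property. -/
theorem result : ∃ (A : Type) (_ : NonUnitalCStarAlgebra A),
    TopologicalSpace.SeparableSpace A ∧ HasNoNonzeroUnitalQuotient A ∧ ¬ IsAF A ∧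
      ¬ HasUniversalAFEmbedding A :=
  ⟨CA, inferInstance, ca_separable, ca_noUnitalQuotient, ca_not_AF, ca_not_universal⟩

end Pool.Agent.Results.MP_4d6ef8_an.Disproof
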